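import Pool.Agent.Helper12_NGR.StmtsC

/-!
Squad NGR, module CDA: assembly of the version with finite cohomological dimension.
-/

set_option autoImplicit false

universe u

namespace Pool.Agent.NGR.H21

/-- `FullyIndicable` passes to subgroups. -/
theorem fi_sub {G : Type u} [Group G] (h : FullyIndicable G) (K : Subgroup G) :
    FullyIndicable K := by
  intro H
  have e : H ≃* (H.map K.subtype : Subgroup G) :=
    H.equivMapOfInjective K.subtype K.subtype_injective
  obtain ⟨hfg, hi⟩ := h (H.map K.subtype)
  refine ⟨?_, ?_⟩
  · have h1 : Group.FG (H.map K.subtype : Subgroup G) := (Group.fg_iff_subgroup_fg _).2 hfg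
    have h2 : Group.FG H := by
      have := Group.fg_of_surjective (G := (H.map K.subtype : Subgroup G)) (G' := H)
        (f := e.symm.toMonoidHom) e.symm.surjective
      exact this
    exact (Group.fg_iff_subgroup_fg _).1 h2
  · intro hH
    have hne : H.map K.subtype ≠ ⊥ := by
      intro hb
      apply hH
      exact (Subgroup.map_eq_bot_iff_of_injective H K.subtype_injective).1 hb
    obtain ⟨f, hf⟩ := hi hne
    exact ⟨f.comp e.toMonoidHom, hf.comp e.surjective⟩

/-- A surjection onto `ℤ`, unless the group is trivial. -/
theorem fi_top {G : Type u} [Group G] (h : FullyIndicable G) :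
    Subsingleton G ∨ ∃ f : G →* Multiplicative ℤ, Function.Surjective f := by
  by_cases ht : (⊤ : Subgroup G) = ⊥
  · left
    exact ⟨fun a b => by
      have ha : a ∈ (⊥ : Subgroup G) := ht ▸ Subgroup.mem_top a
      have hb : b ∈ (⊥ : Subgroup G) := ht ▸ Subgroup.mem_top b
      rw [Subgroup.mem_bot] at ha hb
      rw [ha, hb]⟩
  · right
    obtain ⟨f, hf⟩ := (h ⊤).2 ht
    exact ⟨f.comp (Subgroup.topEquiv (G := G)).symm.toMonoidHom,
      hf.comp (Subgroup.topEquiv (G := G)).symm.surjective⟩

theorem solv_of_sub {G : Type u} [Group G] (h : Subsingleton G) : Group.IsSolvable G := by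
  have := h
  infer_instance

theorem cda (hcdf : CdfStmt.{u}) (hcdz : CdzStmt.{u}) (hfgs : FgsStmt.{u}) : CdaStmt.{u} := by
  intro G _ hN hI hcd
  obtain ⟨n, hn⟩ := hcd
  have key : ∀ n : ℕ, ∀ (G : Type u) [Group G], IsNoetherianRing (MonoidAlgebra ℤ G) →
      FullyIndicable G → CdLE G n → Group.IsSolvable G := by
    intro n
    induction n with
    | zero =>
      intro G _ _ hI h0
      have hfin := hcdz h0
      rcases fi_top hI with hs | ⟨f, hf⟩
      · exact solv_of_sub hs
      · exfalso
        have := hfin
        have : Finite (Multiplicative ℤ) := Finite.of_surjective f hf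
        exact not_finite (Multiplicative ℤ)
    | succ n ih =>
      intro G _ hN hI hn
      rcases fi_top hI with hs | ⟨f, hf⟩
      · exact solv_of_sub hs
      · have hK := (hfgs hN f.ker).2
        have h1 : Group.IsSolvable f.ker := ih f.ker hK (fi_sub hI f.ker) (hcdf f hf hK n hn)
        exact Group.isSolvable_of_ker_le_range f.ker.subtype f (by simp)
  exact key n G hN hI hn

end Pool.Agent.NGR.H21
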